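import Pool.Agent.U481.HW.Stm

set_option autoImplicit false

/-!
Project HW, package STOP: dyadic stopping intervals.
-/

open MeasureTheory Filter Topology Set
open scoped ENNReal NNReal

namespace Pool.Agent.U111.HW.Stop

open Pool.Agent.U481.HW

theorem mem_DD {n j : ℤ} {x : ℝ} : x ∈ DD (n, j) ↔ ⌊x / 2 ^ n⌋ = j := by
  have h2 : (0 : ℝ) < 2 ^ n := by positivity
  rw [Int.floor_eq_iff, le_div_iff₀ h2, div_lt_iff₀ h2]
  rfl

theorem nested {n j m i : ℤ} (hnm : n ≤ m) {x : ℝ} (hx : x ∈ DD (n, j)) (hx' : x ∈ DD (m, i)) :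
    DD (n, j) ⊆ DD (m, i) := by
  obtain ⟨k, rfl⟩ := Int.le.dest hnm
  have h2 : (0 : ℝ) < 2 ^ n := by positivity
  have hm : (2 : ℝ) ^ (n + (k : ℤ)) = 2 ^ k * 2 ^ n := by
    rw [zpow_add₀ (by norm_num), zpow_natCast, mul_comm]
  simp only [DD, mem_Ico] at hx hx'
  rw [hm] at hx'
  have h1 : (i : ℝ) * 2 ^ k < (j : ℝ) + 1 := by
    have : (i : ℝ) * 2 ^ k * 2 ^ n < ((j : ℝ) + 1) * 2 ^ n := by
      calc (i : ℝ) * 2 ^ k * 2 ^ n = (i : ℝ) * (2 ^ k * 2 ^ n) := by ring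
        _ ≤ x := hx'.1
        _ < _ := hx.2
    exact lt_of_mul_lt_mul_right this h2.le
  have h3 : (j : ℝ) < ((i : ℝ) + 1) * 2 ^ k := by
    have : (j : ℝ) * 2 ^ n < ((i : ℝ) + 1) * 2 ^ k * 2 ^ n := by
      calc (j : ℝ) * 2 ^ n ≤ x := hx.1
        _ < _ := hx'.2
        _ = _ := by ring
    exact lt_of_mul_lt_mul_right this h2.le
  have h1' : i * 2 ^ k < j + 1 := by exact_mod_cast h1
  have h3' : j < (i + 1) * 2 ^ k := by exact_mod_cast h3
  have h1'' : ((i * 2 ^ k : ℤ) : ℝ) ≤ j := by exact_mod_cast (by omega : i * 2 ^ k ≤ j)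
  have h3'' : ((j + 1 : ℤ) : ℝ) ≤ (((i + 1) * 2 ^ k : ℤ) : ℝ) := by
    exact_mod_cast (by omega : j + 1 ≤ (i + 1) * 2 ^ k)
  push_cast at h1'' h3''
  unfold DD
  simp only [hm]
  apply Ico_subset_Ico
  · calc (i : ℝ) * (2 ^ k * 2 ^ n) = (i : ℝ) * 2 ^ k * 2 ^ n := by ring
      _ ≤ j * 2 ^ n := mul_le_mul_of_nonneg_right h1'' h2.le
  · calc ((j : ℝ) + 1) * 2 ^ n ≤ ((i : ℝ) + 1) * 2 ^ k * 2 ^ n :=
          mul_le_mul_of_nonneg_right h3'' h2.le
      _ = _ := by ring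

theorem vol_DD (r : ℤ × ℤ) : volume (DD r) = ENNReal.ofReal (2 ^ r.1) := by
  unfold DD
  rw [Real.volume_Ico]
  congr 1
  ring

theorem pow_pos' (n : ℤ) : (0 : ℝ) < 2 ^ n := by positivity

theorem sub_iff {r q : ℤ × ℤ} : DD r ⊆ DD q ↔
    (q.2 : ℝ) * 2 ^ q.1 ≤ (r.2 : ℝ) * 2 ^ r.1 ∧
      ((r.2 : ℝ) + 1) * 2 ^ r.1 ≤ ((q.2 : ℝ) + 1) * 2 ^ q.1 := by
  unfold DD
  apply Ico_subset_Ico_iff
  have := pow_pos' r.1
  nlinarith

theorem le_of_sub {r q : ℤ × ℤ} (h : DD r ⊆ DD q) : (2 : ℝ) ^ r.1 ≤ 2 ^ q.1 := by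
  have := sub_iff.1 h
  nlinarith [this.1, this.2]

theorem le_of_sub' {r q : ℤ × ℤ} (h : DD r ⊆ DD q) : r.1 ≤ q.1 := by
  exact (zpow_le_zpow_iff_right₀ (by norm_num : (1 : ℝ) < 2)).1 (le_of_sub h)

theorem D3_sub {r q : ℤ × ℤ} (h : DD r ⊆ DD q) : D3 r ⊆ D3 q := by
  have h1 := le_of_sub h
  have h2 := sub_iff.1 h
  unfold D3
  apply Ico_subset_Ico
  · nlinarith [h2.1, h2.2]
  · nlinarith [h2.1, h2.2]

theorem nonempty_DD (r : ℤ × ℤ) : (r.2 : ℝ) * 2 ^ r.1 ∈ DD r := by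
  have := pow_pos' r.1
  unfold DD
  constructor
  · exact le_rfl
  · nlinarith

theorem meas_DD (r : ℤ × ℤ) : MeasurableSet (DD r) := measurableSet_Ico

theorem main : S_stop := by
  intro q E hE hEq h16
  set Bad : ℤ × ℤ → Prop := fun r => DD r ⊆ DD q ∧ volume (DD r) < 4 * volume (DD r ∩ E) with hBad
  set F : Set (ℤ × ℤ) := {r | Bad r ∧ ∀ s, Bad s → r.1 < s.1 → ¬ DD r ⊆ DD s} with hF
  have hEfin : volume E ≠ ⊤ := by
    have h1 : volume E ≤ volume (DD q) := measure_mono hEq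
    rw [vol_DD] at h1
    exact ne_top_of_le_ne_top ENNReal.ofReal_ne_top h1
  have hqpos : 0 < volume (DD q) := by
    rw [vol_DD]; exact ENNReal.ofReal_pos.2 (pow_pos' _)
  have hqBad : ¬ Bad q := by
    rintro ⟨-, h⟩
    rw [inter_eq_right.2 hEq] at h
    have h1 : 16 * volume E < 4 * volume E := lt_of_le_of_lt h16 h
    have h2 : 4 * volume E ≤ 16 * volume E := by gcongr; norm_num
    exact absurd h1 (not_lt.2 h2)
  have hdisj : F.PairwiseDisjoint DD := by
    intro r hr s hs hrs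
    rw [Function.onFun, Set.disjoint_left]
    intro x hxr hxs
    rcases lt_trichotomy r.1 s.1 with h | h | h
    · exact hr.2 s hs.1 h (nested (n := r.1) (j := r.2) (m := s.1) (i := s.2) h.le hxr hxs)
    · apply hrs
      have h1 : ⌊x / 2 ^ r.1⌋ = r.2 := mem_DD.1 hxr
      have h2 : ⌊x / 2 ^ s.1⌋ = s.2 := mem_DD.1 hxs
      rw [h] at h1
      exact Prod.ext h (h1.symm.trans h2)
    · exact hs.2 r hr.1 h (nested (n := s.1) (j := s.2) (m := r.1) (i := r.2) h.le hxs hxr)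
  refine ⟨F, ?_, hdisj, ?_, ?_, ?_⟩
  · intro r hr
    exact ⟨hr.1.1, D3_sub hr.1.1⟩
  · -- the measure of the union
    have hcount : F.Countable := Set.to_countable F
    have h1 : volume (⋃ r ∈ F, DD r) ≤ 4 * volume E := by
      calc volume (⋃ r ∈ F, DD r) = ∑' r : F, volume (DD r.1) :=
            measure_biUnion hcount hdisj (fun r _ => meas_DD r)
        _ ≤ ∑' r : F, 4 * volume (DD r.1 ∩ E) :=
            ENNReal.tsum_le_tsum (fun r => r.2.1.2.le)
        _ = 4 * ∑' r : F, volume (DD r.1 ∩ E) := ENNReal.tsum_mul_left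
        _ = 4 * volume (⋃ r ∈ F, DD r ∩ E) := by
            rw [measure_biUnion hcount (hdisj.mono (fun r => inter_subset_left))
              (fun r _ => (meas_DD r).inter hE)]
        _ ≤ 4 * volume E := by
            gcongr
            exact iUnion₂_subset (fun r _ => inter_subset_right)
    calc 2 * volume (⋃ r ∈ F, DD r) ≤ 2 * (4 * volume E) := by gcongr
      _ ≤ 16 * volume E := by
          rw [← mul_assoc]
          gcongr
          norm_num
      _ ≤ _ := h16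
  · -- the intervals are not bad much
    rintro ⟨n, j⟩ hr
    have hn : n ≤ q.1 := le_of_sub' hr.1.1
    have hx : (j : ℝ) * 2 ^ n ∈ DD (n, j) := nonempty_DD (n, j)
    set x : ℝ := (j : ℝ) * 2 ^ n
    have hxq : x ∈ DD (q.1, q.2) := hr.1.1 hx
    have hnlt : n < q.1 := by
      rcases lt_or_eq_of_le hn with h | h
      · exact h
      · exfalso
        apply hqBad
        have h1 : ⌊x / 2 ^ n⌋ = j := mem_DD.1 hx
        have h2 : ⌊x / 2 ^ q.1⌋ = q.2 := mem_DD.1 hxq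
        rw [← h, h1] at h2
        have : q = (n, j) := Prod.ext h.symm h2.symm
        rw [this]
        exact hr.1
    set i : ℤ := ⌊x / 2 ^ (n + 1)⌋ with hi
    have hxi : x ∈ DD (n + 1, i) := mem_DD.2 hi.symm
    have hsub1 : DD (n, j) ⊆ DD (n + 1, i) := nested (by omega) hx hxi
    have hsub2 : DD (n + 1, i) ⊆ DD q := nested (m := q.1) (i := q.2) (by omega) hxi hxq
    have hnb : ¬ Bad (n + 1, i) := fun hb => hr.2 _ hb (by simp) hsub1
    have h3 : 4 * volume (DD (n + 1, i) ∩ E) ≤ volume (DD (n + 1, i)) := by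
      by_contra hcon
      exact hnb ⟨hsub2, not_le.1 hcon⟩
    have h4 : volume (DD (n + 1, i)) = 2 * volume (DD (n, j)) := by
      rw [vol_DD, vol_DD]
      simp only
      rw [zpow_add₀ (by norm_num : (2 : ℝ) ≠ 0), zpow_one, mul_comm,
        ENNReal.ofReal_mul (by norm_num)]
      norm_num
    have h5 : 4 * volume (DD (n, j) ∩ E) ≤ 2 * volume (DD (n, j)) := by
      calc 4 * volume (DD (n, j) ∩ E) ≤ 4 * volume (DD (n + 1, i) ∩ E) := by gcongr
        _ ≤ _ := h3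
        _ = _ := h4
    have h6 : (2 : ℝ≥0∞) * (2 * volume (DD (n, j) ∩ E)) ≤ 2 * volume (DD (n, j)) := by
      rw [← mul_assoc]
      norm_num
      exact h5
    exact (ENNReal.mul_le_mul_iff_right (by norm_num) (by norm_num)).1 h6
  · -- density
    have hdens := IsUnifLocDoublingMeasure.ae_tendsto_measure_inter_div (volume : Measure ℝ) E 1
    rw [ae_restrict_iff' hE] at hdens
    filter_upwards [hdens] with x hx hxE
    have hxq : x ∈ DD (q.1, q.2) := hEq hxE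
    -- the dyadic intervals around `x`
    set J : ℕ → ℤ := fun k => ⌊x / 2 ^ (-(k : ℤ))⌋ with hJ
    have hxJ : ∀ k : ℕ, x ∈ DD (-(k : ℤ), J k) := fun k => mem_DD.2 rfl
    set w : ℕ → ℝ := fun k => ((J k : ℝ) + 1 / 2) * 2 ^ (-(k : ℤ)) with hw
    set δ : ℕ → ℝ := fun k => (1 / 2 : ℝ) * 2 ^ (-(k : ℤ)) with hδ
    have hδlim : Tendsto δ atTop (𝓝[>] 0) := by
      rw [tendsto_nhdsWithin_iff]
      constructor
      · have h1 : Tendsto (fun k : ℕ => (1 / 2 : ℝ) * (1 / 2) ^ k) atTop (𝓝 (1 / 2 * 0)) :=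
          (tendsto_pow_atTop_nhds_zero_of_lt_one (by norm_num) (by norm_num)).const_mul _
        rw [mul_zero] at h1
        refine h1.congr (fun k => ?_)
        simp only [hδ, zpow_neg, zpow_natCast, one_div, inv_pow]
      · exact Eventually.of_forall (fun k => by
          simp only [hδ, mem_Ioi]; positivity)
    have hball : ∀ k : ℕ, Metric.closedBall (w k) (δ k) =
        Icc ((J k : ℝ) * 2 ^ (-(k : ℤ))) (((J k : ℝ) + 1) * 2 ^ (-(k : ℤ))) := by
      intro k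
      rw [Real.closedBall_eq_Icc]
      congr 1 <;> simp only [hw, hδ] <;> ring
    have hmem : ∀ᶠ k : ℕ in atTop, x ∈ Metric.closedBall (w k) (1 * δ k) := by
      refine Eventually.of_forall (fun k => ?_)
      rw [one_mul, hball]
      exact Ico_subset_Icc_self (hxJ k)
    have hlim := hx hxE w δ hδlim hmem
    have hev1 : ∀ᶠ k : ℕ in atTop, (1 / 4 : ℝ≥0∞) <
        volume (E ∩ Metric.closedBall (w k) (δ k)) / volume (Metric.closedBall (w k) (δ k)) := by
      apply hlim.eventually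
      apply lt_mem_nhds
      rw [one_div]
      exact ENNReal.inv_lt_one.2 (by norm_num)
    have hev2 : ∀ᶠ k : ℕ in atTop, -(k : ℤ) ≤ q.1 := by
      filter_upwards [eventually_ge_atTop q.1.natAbs] with k hk
      omega
    obtain ⟨k, hk1, hk2⟩ := (hev1.and hev2).exists
    have hbad : Bad (-(k : ℤ), J k) := by
      refine ⟨nested (m := q.1) (i := q.2) hk2 (hxJ k) hxq, ?_⟩
      have hv1 : volume (Metric.closedBall (w k) (δ k)) = volume (DD (-(k : ℤ), J k)) := by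
        rw [hball, DD, Real.volume_Icc, Real.volume_Ico]
      have hv2 : volume (E ∩ Metric.closedBall (w k) (δ k)) = volume (DD (-(k : ℤ), J k) ∩ E) := by
        rw [hball, DD, inter_comm]
        apply measure_congr
        exact (Ico_ae_eq_Icc.symm).inter (ae_eq_refl E)
      rw [hv1, hv2] at hk1
      have hpos : volume (DD (-(k : ℤ), J k)) ≠ 0 := by
        rw [vol_DD]; exact (ENNReal.ofReal_pos.2 (pow_pos' _)).ne'
      have hfin : volume (DD (-(k : ℤ), J k)) ≠ ⊤ := by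
        rw [vol_DD]; exact ENNReal.ofReal_ne_top
      rw [ENNReal.lt_div_iff_mul_lt (Or.inl hpos) (Or.inl hfin)] at hk1
      have h7 : (4 : ℝ≥0∞) * (1 / 4 * volume (DD (-(k : ℤ), J k))) <
          4 * volume (DD (-(k : ℤ), J k) ∩ E) :=
        ENNReal.mul_lt_mul_right (by norm_num) (by norm_num) hk1
      rw [← mul_assoc, one_div, ENNReal.mul_inv_cancel (by norm_num) (by norm_num), one_mul] at h7
      exact h7
    -- a maximal bad interval
    obtain ⟨m, hm1, hm2⟩ := Int.exists_greatest_of_bdd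
      (P := fun m : ℤ => Bad (m, ⌊x / 2 ^ m⌋))
      ⟨q.1, fun z hz => le_of_sub' (r := (z, ⌊x / 2 ^ z⌋)) hz.1⟩ ⟨-(k : ℤ), hbad⟩
    refine ⟨(m, ⌊x / 2 ^ m⌋), ⟨hm1, ?_⟩, mem_DD.2 rfl⟩
    rintro ⟨s1, s2⟩ hs hlt hsub
    have hxs : x ∈ DD (s1, s2) := hsub (mem_DD.2 rfl)
    have h8 : ⌊x / 2 ^ s1⌋ = s2 := mem_DD.1 hxs
    have h9 : s1 ≤ m := hm2 s1 (by rw [h8]; exact hs)
    simp only at hlt
    omega

end Pool.Agent.U111.HW.Stop
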